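import Pool.Agent.Q253.BeatC

/-!
# Colourings with fewer monochromatic `k`-term progressions than a random colouring

For every `k ≥ 3` and every `r ≥ 2` there are a constant `δ < 1 / (2 (k - 1) r ^ (k - 1))` and `r`-colourings
`χ n` of `{1, ..., n}` with `δ n ^ 2 + O(n)` monochromatic `k`-term progressions.

Proof (the paper idea, a bipolar perturbation near `0` and `n / (k - 1)`, derandomised and interpolated, is
helper120's). Colour `x` with the colour `0` with probability `1 / r + ε g(x)`, with the colour `1` with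
probability `1 / r - ε g(x)`, and with the other colours with probability `1 / r`, where `g = -1` on `[1, M]`,
`g = 1` on `(v - L, v]` and `g = -1` on `(v, v + L]`, with `v = ⌊n / (k - 1)⌋`, `L = 8 k² M` and `M` a
small multiple of `n`. The expected number of monochromatic progressions changes by the quadratic form
`2 ε² r ^ (2 - k) ∑ g(x_i) g(x_j)`, up to `O(ε³)`. Progressions which start in `[1, M]` with second term near
`v` must have the second term at most `v + M`, which gives the main term `- M (L - M)`; the remaining terms are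
at most `k² M²` and `O(k M)`. So some colouring beats the random rate by a constant factor, and recolouring the
elements `1, 2, 3, ...` one after the other reaches every intermediate value up to `k n`.
-/

set_option autoImplicit false
set_option maxHeartbeats 4000000

namespace Pool.Agent.Results.MP_6bff71_co.BeatsRandom

open Finset

/-- The `k`-term progressions `a, a + d, ..., a + (k - 1) d` in `{1, ..., n}` (with `a ≥ 1`, `d ≥ 1`), given
by the pairs `(a, d)`; as a set, a progression with `k ≥ 2` terms determines `a` and `d`. -/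
def progressions (k n : ℕ) : Finset (ℕ × ℕ) :=
  (Icc 1 n ×ˢ Icc 1 n).filter (fun p => p.1 + (k - 1) * p.2 ≤ n)

/-- The number `M_k(χ)` of the `k`-term progressions in `{1, ..., n}` that are monochromatic under `χ`. -/
def monochromatic (k n : ℕ) {r : ℕ} (χ : ℕ → Fin r) : ℕ :=
  ((progressions k n).filter (fun p => ∀ i < k, χ (p.1 + i * p.2) = χ p.1)).card

open Pool.Agent.Q253.Beat in
lemma mean_bound (k r : ℕ) (hk : 3 ≤ k) (hr : 2 ≤ r) :
    ∃ δ : ℝ, δ < 1 / (2 * ((k : ℝ) - 1) * (r : ℝ) ^ (k - 1)) ∧ ∃ n₀ : ℕ, ∀ n ≥ n₀, ∃ χ : ℕ → Fin r,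
      (mono k n χ : ℝ) ≤ δ * n ^ 2 := by
  obtain ⟨m, hkdef⟩ : ∃ m, k = m + 3 := ⟨k - 3, by omega⟩
  obtain ⟨s', hrdef⟩ : ∃ s', r = s' + 2 := ⟨r - 2, by omega⟩
  obtain ⟨C, hC, hexp⟩ := expand (m + 1)
  rw [show m + 1 + 2 = k by omega] at hexp
  have hr0 : (0 : ℝ) < r := by positivity
  have hr2 : (2 : ℝ) ≤ r := by rw [hrdef]; push_cast; linarith [(Nat.cast_nonneg s' : (0 : ℝ) ≤ s')]
  obtain ⟨ρ, hρ⟩ : ∃ ρ : ℝ, ρ = 1 / r := ⟨_, rfl⟩
  have hρ0 : 0 < ρ := by rw [hρ]; positivity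
  have hρ1 : ρ ≤ 1 := by
    rw [hρ, div_le_one hr0]
    linarith
  obtain ⟨A, hA⟩ : ∃ A : ℕ, A = 400 * k ^ 4 := ⟨_, rfl⟩
  have hApos : 0 < A := by rw [hA]; positivity
  have hAr : (0 : ℝ) < A := by exact_mod_cast hApos
  obtain ⟨c0, hc0⟩ : ∃ c0 : ℝ, c0 = 1 / (2 * (A : ℝ)) ^ 2 := ⟨_, rfl⟩
  have hc0pos : 0 < c0 := by rw [hc0]; positivity
  -- epsilon
  obtain ⟨ε, hε⟩ : ∃ ε : ℝ, ε = min (ρ / 2) (ρ ^ (m + 1) * c0 / (C + 1)) := ⟨_, rfl⟩
  have hε0 : 0 < ε := by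
    rw [hε]
    apply lt_min <;> positivity
  have hε1 : ε ≤ ρ / 2 := by rw [hε]; exact min_le_left _ _
  have hε2 : C * ε ≤ ρ ^ (m + 1) * c0 := by
    have h1 : ε ≤ ρ ^ (m + 1) * c0 / (C + 1) := by rw [hε]; exact min_le_right _ _
    rw [le_div_iff₀ (by positivity)] at h1
    nlinarith
  have hεle1 : ε ≤ 1 := by linarith
  have hk1 : (k : ℝ) - 1 = (m : ℝ) + 2 := by rw [hkdef]; push_cast; ring
  have hk1' : k - 1 = m + 2 := by omega
  refine ⟨1 / (2 * ((k : ℝ) - 1) * (r : ℝ) ^ (k - 1)) - ρ ^ (m + 1) * ε ^ 2 * c0, ?_, ?_⟩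
  · have : 0 < ρ ^ (m + 1) * ε ^ 2 * c0 := by positivity
    linarith
  refine ⟨A * (2 * k) + 4 * k ^ 3 * A, ?_⟩
  intro n hn
  -- parameters
  obtain ⟨M, hM⟩ : ∃ M, M = n / A := ⟨_, rfl⟩
  obtain ⟨L, hL⟩ : ∃ L, L = 8 * k ^ 2 * M := ⟨_, rfl⟩
  obtain ⟨v, hv⟩ : ∃ v, v = n / (k - 1) := ⟨_, rfl⟩
  have hkk : 3 ≤ k := hk
  have hM1 : A * M ≤ n := by rw [hM]; exact Nat.mul_div_le n A
  have hM2 : n < A * (M + 1) := by rw [hM]; exact Nat.lt_mul_div_succ n hApos
  have hMk : 4 * k ^ 3 ≤ M := by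
    rw [hM, Nat.le_div_iff_mul_le hApos]
    have : 0 ≤ A * (2 * k) := Nat.zero_le _
    omega
  have hv1 : (k - 1) * v ≤ n := by rw [hv]; exact Nat.mul_div_le n (k - 1)
  have hv2 : n < (k - 1) * (v + 1) := by rw [hv]; exact Nat.lt_mul_div_succ n (by omega)
  have hk3M : k ^ 3 ≤ M := by omega
  have hkM : k ≤ M := by
    have : k ≤ k ^ 3 := Nat.le_self_pow (by norm_num) k
    omega
  have hMpos : 0 < M := by omega
  -- v is large
  have hvM : 100 * k ^ 3 * M < v := by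
    by_contra hcon
    push Not at hcon
    have h1 : (k - 1) * (v + 1) ≤ k * (100 * k ^ 3 * M + 1) := Nat.mul_le_mul (by omega) (by omega)
    have h2 : A * M = 4 * (k * (100 * k ^ 3 * M)) := by rw [hA]; ring
    have h3 : k * (100 * k ^ 3 * M + 1) = k * (100 * k ^ 3 * M) + k := by ring
    have h4 : k ≤ k * (100 * k ^ 3 * M) := by
      apply Nat.le_mul_of_pos_right
      positivity
    omega
  have hLle : (2 * k + 1) * L + (k + 1) * M ≤ 30 * k ^ 3 * M := by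
    rw [hL]
    have : (2 * k + 1) * (8 * k ^ 2 * M) + (k + 1) * M = (16 * k ^ 3 + 8 * k ^ 2 + k + 1) * M := by ring
    rw [this]
    apply Nat.mul_le_mul_right
    have h1 : 3 * k ^ 2 ≤ k ^ 3 := by
      have : k ^ 3 = k * k ^ 2 := by ring
      rw [this]
      exact Nat.mul_le_mul_right _ hkk
    have h2 : k ≤ k ^ 2 := by nlinarith
    have h3 : 1 ≤ k ^ 2 := by nlinarith
    omega
  have hv3 : (2 * k + 1) * L + (k + 1) * M < v := by
    have : 30 * k ^ 3 * M ≤ 100 * k ^ 3 * M := by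
      apply Nat.mul_le_mul_right
      omega
    omega
  have hL0 : L ≤ 30 * k ^ 3 * M := by
    have : L ≤ (2 * k + 1) * L := Nat.le_mul_of_pos_left _ (by omega)
    omega
  have hvk : k < v - L := by
    have h1 : 100 * k ^ 3 * M = 30 * k ^ 3 * M + 70 * k ^ 3 * M := by ring
    have h2 : k ≤ 70 * k ^ 3 * M := by
      calc k ≤ M := hkM
        _ ≤ 70 * k ^ 3 * M := Nat.le_mul_of_pos_left _ (by positivity)
    omega
  have hML : M ≤ L := by
    rw [hL]
    exact Nat.le_mul_of_pos_left _ (by positivity)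
  have hquad := quad k n M L v hkk hv3 hvk hv1 hv2 hML
  have hG : (∑ p ∈ aps k n, ∑ j ∈ range k, ∑ i ∈ range j, (g M L v (p.1 + i * p.2) : ℝ) * (g M L v (p.1 + j * p.2) : ℝ)) ≤
      - c0 * n ^ 2 := by
    have h1 : ((∑ p ∈ aps k n, ∑ j ∈ range k, ∑ i ∈ range j, g M L v (p.1 + i * p.2) * g M L v (p.1 + j * p.2) : ℤ) : ℝ) ≤
        (((k : ℤ) ^ 2 * (M ^ 2 + k) + k * M - M * (L - M) : ℤ) : ℝ) := by exact_mod_cast hquad
    push_cast at h1
    refine h1.trans ?_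
    have hLr : (L : ℝ) = 8 * (k : ℝ) ^ 2 * M := by rw [hL]; push_cast; ring
    rw [hLr]
    have hkr : (3 : ℝ) ≤ k := by exact_mod_cast hkk
    have hk3r : (k : ℝ) ^ 3 ≤ M := by exact_mod_cast hk3M
    have hkMr : (k : ℝ) ≤ M := by exact_mod_cast hkM
    have hM1r : (1 : ℝ) ≤ M := by linarith
    have hnM : (n : ℝ) ≤ 2 * A * M := by
      have : (n : ℝ) < A * (M + 1) := by exact_mod_cast hM2
      nlinarith
    have h2 : c0 * (n : ℝ) ^ 2 ≤ (M : ℝ) ^ 2 := by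
      rw [hc0, div_mul_eq_mul_div, one_mul, div_le_iff₀ (by positivity)]
      calc (n : ℝ) ^ 2 ≤ (2 * A * M) ^ 2 := pow_le_pow_left₀ (by positivity) hnM 2
        _ = _ := by ring
    have h3 : (k : ℝ) ^ 3 ≤ (M : ℝ) ^ 2 := by nlinarith
    have h4 : (k : ℝ) * M ≤ (M : ℝ) ^ 2 := by nlinarith
    have h5 : 9 * (M : ℝ) ^ 2 ≤ (k : ℝ) ^ 2 * (M : ℝ) ^ 2 := by
      apply mul_le_mul_of_nonneg_right _ (by positivity)
      nlinarith
    nlinarith
  -- the distribution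
  let G : ℕ → ℝ := fun x => (g M L v x : ℝ)
  have hG1 : ∀ x, |G x| ≤ 1 := by
    intro x
    have : |g M L v x| ≤ 1 := by
      unfold g s i0
      have h1 : M < v - L := by
        have : (k + 1) * M = k * M + M := by ring
        have : M ≤ (k + 1) * M := Nat.le_mul_of_pos_left _ (by omega)
        have : L ≤ (2 * k + 1) * L := Nat.le_mul_of_pos_left _ (by omega)
        omega
      split_ifs <;> first | omega | simp
    have h2 : ((|g M L v x| : ℤ) : ℝ) ≤ ((1 : ℤ) : ℝ) := by exact_mod_cast this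
    simpa using h2
  let q : ℕ → Fin r → ℝ := fun x c => if c.val = 0 then ρ + ε * G x else if c.val = 1 then ρ - ε * G x else ρ
  have hεG : ∀ x, |ε * G x| ≤ ρ / 2 := by
    intro x
    rw [abs_mul, abs_of_pos hε0]
    have := hG1 x
    nlinarith [abs_nonneg (G x)]
  have hq0 : ∀ x c, 0 < q x c := by
    intro x c
    have := abs_le.1 (hεG x)
    simp only [q]
    split_ifs <;> linarith
  have hsum : ∀ f : ℕ → ℝ, ∑ c : Fin r, (if c.val = 0 then f 0 else if c.val = 1 then f 1 else f 2) = f 0 + f 1 + s' * f 2 := by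
    intro f
    rw [Fin.sum_univ_eq_sum_range (fun i => if i = 0 then f 0 else if i = 1 then f 1 else f 2) r, hrdef,
      Finset.sum_range_succ', Finset.sum_range_succ']
    simp only [Nat.add_eq_zero_iff, one_ne_zero, and_false, if_false, if_true, zero_add]
    have : ∀ i ∈ range s', (if i + 1 + 1 = 0 then f 0 else if i + 1 + 1 = 1 then f 1 else f 2) = f 2 := by
      intro i _
      rw [if_neg (by omega), if_neg (by omega)]
    have h2 : ∀ i ∈ range s', (if i + 1 + 1 = 1 then f 1 else f 2) = f 2 := by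
      intro i _
      rw [if_neg (by omega)]
    rw [Finset.sum_congr rfl h2, Finset.sum_const, Finset.card_range, nsmul_eq_mul]
    ring
  have hq : ∀ x, ∑ c, q x c = 1 := by
    intro x
    have := hsum (fun i => if i = 0 then ρ + ε * G x else if i = 1 then ρ - ε * G x else ρ)
    simp only [if_true, one_ne_zero, if_false, OfNat.ofNat_ne_zero, OfNat.ofNat_ne_one] at this
    simp only [q]
    rw [this, hρ, hrdef]
    push_cast
    field_simp
    ring
  obtain ⟨χ, hχ⟩ := exists_le_mean (n := n) (show 1 ≤ k by omega) (show 0 < r by omega) q hq hq0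
  refine ⟨χ, hχ.trans ?_⟩
  -- evaluate the mean
  have hp : ∀ p ∈ aps k n, ∑ c : Fin r, ∏ i ∈ range k, q (p.1 + i * p.2) c ≤
      (r : ℝ) * ρ ^ k + 2 * ρ ^ (m + 1) * ε ^ 2 * (∑ j ∈ range k, ∑ i ∈ range j, G (p.1 + i * p.2) * G (p.1 + j * p.2)) + C * ε ^ 3 := by
    intro p _
    have e1 : ∀ c : Fin r, ∏ i ∈ range k, q (p.1 + i * p.2) c =
        if c.val = 0 then (∏ i ∈ range k, (ρ + ε * G (p.1 + i * p.2))) else if c.val = 1 then (∏ i ∈ range k, (ρ - ε * G (p.1 + i * p.2))) else ρ ^ k := by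
      intro c
      simp only [q]
      split_ifs
      · rfl
      · rfl
      · rw [Finset.prod_const, Finset.card_range]
    have := hsum (fun i => if i = 0 then (∏ i ∈ range k, (ρ + ε * G (p.1 + i * p.2))) else if i = 1 then (∏ i ∈ range k, (ρ - ε * G (p.1 + i * p.2))) else ρ ^ k)
    simp only [if_true, one_ne_zero, if_false, OfNat.ofNat_ne_zero, OfNat.ofNat_ne_one] at this
    rw [Finset.sum_congr rfl (fun c _ => e1 c), this]
    have h2 := (hexp ρ ε (fun j => G (p.1 + j * p.2)) hρ0.le hρ1 hε0.le hεle1 (fun j => hG1 _)).1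
    rw [abs_le] at h2
    have h3 := h2.2
    have h4 : (s' : ℝ) = r - 2 := by rw [hrdef]; push_cast; ring
    rw [h4]
    linarith
  refine (Finset.sum_le_sum hp).trans ?_
  rw [Finset.sum_add_distrib, Finset.sum_add_distrib, Finset.sum_const, Finset.sum_const, nsmul_eq_mul, nsmul_eq_mul,
    ← Finset.mul_sum]
  have hcard := card_aps_le k n
  have hcardr : 2 * ((k : ℝ) - 1) * ((aps k n).card : ℝ) ≤ (n : ℝ) ^ 2 := by
    have : ((2 * (k - 1) * (aps k n).card : ℕ) : ℝ) ≤ ((n ^ 2 : ℕ) : ℝ) := by exact_mod_cast hcard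
    rw [hk1'] at this
    push_cast at this
    rw [hk1]
    exact this
  have hN1 : ((aps k n).card : ℝ) ≤ (n : ℝ) ^ 2 := by
    have h0 : (0 : ℝ) ≤ ((aps k n).card : ℝ) := Nat.cast_nonneg _
    rw [hk1] at hcardr
    have : (0 : ℝ) ≤ m := Nat.cast_nonneg m
    nlinarith
  have hk1pos : 0 < (k : ℝ) - 1 := by rw [hk1]; positivity
  have t1 : ((aps k n).card : ℝ) * ((r : ℝ) * ρ ^ k) ≤ 1 / (2 * ((k : ℝ) - 1) * (r : ℝ) ^ (k - 1)) * (n : ℝ) ^ 2 := by
    have e1 : (r : ℝ) * ρ ^ k = 1 / (r : ℝ) ^ (k - 1) := by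
      rw [hρ, hk1', show k = (m + 2) + 1 by omega, div_pow, one_pow, pow_succ]
      field_simp
    rw [e1, mul_one_div, div_mul_eq_mul_div, one_mul, div_le_div_iff₀ (by positivity) (by positivity)]
    calc ((aps k n).card : ℝ) * (2 * ((k : ℝ) - 1) * (r : ℝ) ^ (k - 1)) = (2 * ((k : ℝ) - 1) * ((aps k n).card : ℝ)) * (r : ℝ) ^ (k - 1) := by ring
      _ ≤ (n : ℝ) ^ 2 * (r : ℝ) ^ (k - 1) := mul_le_mul_of_nonneg_right hcardr (by positivity)
  have t2 : 2 * ρ ^ (m + 1) * ε ^ 2 * (∑ p ∈ aps k n, ∑ j ∈ range k, ∑ i ∈ range j, G (p.1 + i * p.2) * G (p.1 + j * p.2)) ≤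
      2 * ρ ^ (m + 1) * ε ^ 2 * (- c0 * n ^ 2) := mul_le_mul_of_nonneg_left hG (by positivity)
  have t3 : ((aps k n).card : ℝ) * (C * ε ^ 3) ≤ (n : ℝ) ^ 2 * (ρ ^ (m + 1) * c0 * ε ^ 2) := by
    have h1 : C * ε ^ 3 ≤ ρ ^ (m + 1) * c0 * ε ^ 2 := by
      have : C * ε ^ 3 = (C * ε) * ε ^ 2 := by ring
      rw [this]
      exact mul_le_mul_of_nonneg_right hε2 (by positivity)
    exact mul_le_mul hN1 h1 (by positivity) (by positivity)
  nlinarith

open Pool.Agent.Q253.Beat in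
theorem result (k r : ℕ) (hk : 3 ≤ k) (hr : 2 ≤ r) :
    ∃ δ : ℝ, δ < 1 / (2 * ((k : ℝ) - 1) * (r : ℝ) ^ (k - 1)) ∧
      ∃ χ : ℕ → ℕ → Fin r, ∃ C : ℝ, ∀ n : ℕ, |(monochromatic k n (χ n) : ℝ) - δ * n ^ 2| ≤ C * n := by
  obtain ⟨δ, hδ, n₀, h⟩ := mean_bound k r hk hr
  have hkr : (3 : ℝ) ≤ k := by exact_mod_cast hk
  have hrr : (2 : ℝ) ≤ r := by exact_mod_cast hr
  -- the constant colouring has more progressions
  have hδ8 : δ ≤ 1 / (8 * ((k : ℝ) - 1)) := by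
    refine hδ.le.trans ?_
    apply one_div_le_one_div_of_le (by linarith)
    have h1 : (4 : ℝ) ≤ (r : ℝ) ^ (k - 1) := by
      calc (4 : ℝ) = 2 ^ 2 := by norm_num
        _ ≤ (r : ℝ) ^ 2 := by gcongr
        _ ≤ (r : ℝ) ^ (k - 1) := pow_le_pow_right₀ (by linarith) (by omega)
    nlinarith
  have hmid : ∀ n ≥ max n₀ (16 * k), ∃ χ : ℕ → Fin r, |(mono k n χ : ℝ) - δ * n ^ 2| ≤ k * n := by
    intro n hn
    obtain ⟨χ, hχ⟩ := h n (le_trans (le_max_left _ _) hn)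
    apply interpolate (by omega) χ ⟨0, by omega⟩ _ hχ
    have h1 := card_aps_ge k n (by omega)
    have hn16 : 16 * k ≤ n := le_trans (le_max_right _ _) hn
    have hnr : 16 * (k : ℝ) ≤ n := by exact_mod_cast hn16
    have h2 : (n : ℝ) / 2 - 1 ≤ ((n / 2 : ℕ) : ℝ) := by
      have := Nat.div_add_mod n 2
      have h3 := Nat.mod_lt n (show 0 < 2 by norm_num)
      have h4 : (n : ℝ) ≤ 2 * ((n / 2 : ℕ) : ℝ) + 1 := by
        exact_mod_cast (by omega : n ≤ 2 * (n / 2) + 1)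
      linarith
    have hk1 : ((k - 1 : ℕ) : ℝ) = (k : ℝ) - 1 := by rw [Nat.cast_sub (by omega)]; simp
    have h3 : (n : ℝ) / (2 * ((k : ℝ) - 1)) - 1 ≤ ((n / (2 * (k - 1)) : ℕ) : ℝ) := by
      have h5 := Nat.lt_mul_div_succ n (show 0 < 2 * (k - 1) by omega)
      have h6 : (n : ℝ) < 2 * ((k - 1 : ℕ) : ℝ) * (((n / (2 * (k - 1)) : ℕ) : ℝ) + 1) := by exact_mod_cast h5
      rw [hk1] at h6
      rw [sub_le_iff_le_add, div_le_iff₀ (by linarith)]
      linarith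
    have h4 : (((n / 2 : ℕ) : ℝ)) * (((n / (2 * (k - 1)) : ℕ) : ℝ)) ≤ ((aps k n).card : ℝ) := by exact_mod_cast h1
    refine le_trans ?_ h4
    have h5 : 0 ≤ (n : ℝ) / 2 - 1 := by linarith
    have hk1pos : 0 < (k : ℝ) - 1 := by linarith
    have h6 : 1 ≤ (n : ℝ) / (2 * ((k : ℝ) - 1)) := by
      rw [le_div_iff₀ (by linarith)]
      linarith
    have h7 : ((n : ℝ) / 2 - 1) * ((n : ℝ) / (2 * ((k : ℝ) - 1)) - 1) ≤ (((n / 2 : ℕ) : ℝ)) * (((n / (2 * (k - 1)) : ℕ) : ℝ)) :=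
      mul_le_mul h2 h3 (by linarith) (by positivity)
    refine le_trans ?_ h7
    have h8 : δ * (n : ℝ) ^ 2 ≤ 1 / (8 * ((k : ℝ) - 1)) * (n : ℝ) ^ 2 := mul_le_mul_of_nonneg_right hδ8 (by positivity)
    refine h8.trans ?_
    have h9 : 1 / (8 * ((k : ℝ) - 1)) * (n : ℝ) ^ 2 = (n : ℝ) / 2 * ((n : ℝ) / (2 * ((k : ℝ) - 1))) * (1 / 2) := by
      field_simp
      ring
    rw [h9]
    set X := (n : ℝ) / 2 with hX
    set Z := (n : ℝ) / (2 * ((k : ℝ) - 1)) with hZ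
    have hX24 : 24 ≤ X := by rw [hX]; linarith
    have hZ8 : 8 ≤ Z := by
      rw [hZ, le_div_iff₀ (by linarith)]
      linarith
    nlinarith
  have : Nonempty (Fin r) := ⟨⟨0, by omega⟩⟩
  choose! χ hχ using hmid
  refine ⟨δ, hδ, χ, (k : ℝ) + (1 + |δ|) * (max n₀ (16 * k) : ℕ), ?_⟩
  intro n
  have e : monochromatic k n (χ n) = mono k n (χ n) := rfl
  rw [e]
  by_cases hn : max n₀ (16 * k) ≤ n
  · refine (hχ n hn).trans ?_
    have : 0 ≤ (1 + |δ|) * ((max n₀ (16 * k) : ℕ) : ℝ) * n := by positivity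
    nlinarith
  · push Not at hn
    have h1 : (mono k n (χ n) : ℝ) ≤ (n : ℝ) ^ 2 := by exact_mod_cast mono_le (χ n)
    have h0 : (0 : ℝ) ≤ (mono k n (χ n) : ℝ) := Nat.cast_nonneg _
    have hnn : (0 : ℝ) ≤ n := Nat.cast_nonneg _
    have h2 : |(mono k n (χ n) : ℝ) - δ * n ^ 2| ≤ (n : ℝ) ^ 2 + |δ| * (n : ℝ) ^ 2 := by
      refine (abs_sub _ _).trans ?_
      rw [abs_of_nonneg h0, abs_mul, abs_of_nonneg (by positivity : (0 : ℝ) ≤ (n : ℝ) ^ 2)]
      linarith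
    have h3 : (n : ℝ) ≤ ((max n₀ (16 * k) : ℕ) : ℝ) := by exact_mod_cast hn.le
    have h4 : (1 + |δ|) * (n : ℝ) * (n : ℝ) ≤ (1 + |δ|) * ((max n₀ (16 * k) : ℕ) : ℝ) * n := by
      apply mul_le_mul_of_nonneg_right _ hnn
      apply mul_le_mul_of_nonneg_left h3
      have := abs_nonneg δ
      linarith
    have h5 : 0 ≤ (k : ℝ) * n := by positivity
    calc |(mono k n (χ n) : ℝ) - δ * n ^ 2| ≤ (n : ℝ) ^ 2 + |δ| * (n : ℝ) ^ 2 := h2
      _ = (1 + |δ|) * (n : ℝ) * (n : ℝ) := by ring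
      _ ≤ (1 + |δ|) * ((max n₀ (16 * k) : ℕ) : ℝ) * n := h4
      _ ≤ ((k : ℝ) + (1 + |δ|) * ((max n₀ (16 * k) : ℕ) : ℝ)) * n := by linarith

end Pool.Agent.Results.MP_6bff71_co.BeatsRandom
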